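import Pool.Agent.H27.GH.Targets

namespace Pool.Agent.H74.GH

open MvPolynomial SC Pool.Agent.H27.LV Pool.Agent.H27.GH

lemma pole_xx {k K : Type} [Field k] [Field K] [Algebra k K] {n : ℕ} (v : DV k K) (z : Fin n → K) :
    ∃ b, xx z b ≠ 0 ∧ v.ord (xx z b) = -(poleOrder v z : ℤ) := by
  by_cases hP : poleOrder v z = 0
  · refine ⟨0, ?_, ?_⟩
    · simp [xx]
    · simp [xx, hP, v.ord_one]
  · have hne : (Finset.univ : Finset (Fin n)).Nonempty := by
      by_contra h
      rw [Finset.not_nonempty_iff_eq_empty] at h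
      apply hP
      unfold poleOrder
      rw [h]; rfl
    obtain ⟨b, -, hb⟩ := Finset.exists_mem_eq_sup Finset.univ hne
      (fun i => (-(v.ord (z i))).toNat)
    have hb' : poleOrder v z = (-(v.ord (z b))).toNat := hb
    refine ⟨b.succ, ?_, ?_⟩
    · simp only [xx, Fin.cons_succ]
      intro h0
      rw [h0, v.ord_zero] at hb'
      exact hP (by simpa using hb')
    · simp only [xx, Fin.cons_succ]
      omega

lemma ge_xx {k K : Type} [Field k] [Field K] [Algebra k K] {n : ℕ} (v : DV k K) (z : Fin n → K)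
    (β : Fin (n + 1)) : -(poleOrder v z : ℤ) ≤ v.ord (xx z β) := by
  refine Fin.cases ?_ (fun s => ?_) β
  · simp [xx, v.ord_one]
  · simp only [xx, Fin.cons_succ]
    have h3 : (-(v.ord (z s))).toNat ≤ poleOrder v z :=
      Finset.le_sup (f := fun s => (-(v.ord (z s))).toNat) (Finset.mem_univ s)
    omega

theorem ci : T_CI := by
  classical
  intro k K _ _ _ n q a v z hGP hres hne
  by_contra hcard
  rw [not_le] at hcard
  obtain ⟨b, hb0, hb⟩ := pole_xx v z
  have hint : ∀ β, 0 ≤ v.ord ((xx z b)⁻¹ * xx z β) := by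
    intro β
    by_cases h : xx z β = 0
    · rw [h, mul_zero, v.ord_zero]
    · rw [v.ord_mul _ _ (inv_ne_zero hb0) h, v.ord_inv, hb]
      have := ge_xx v z β
      omega
  choose c0 hc0 using fun β => hres _ (hint β)
  obtain ⟨I, hI, hIc⟩ := Finset.exists_subset_card_eq (Nat.succ_le_of_lt hcard)
  have hli := hGP.2 I hIc
  have hz : ∀ i : I, ∑ s, a i.1 s * c0 s = 0 := by
    intro i
    have hi := hI i.2
    rw [Finset.mem_filter] at hi
    have h1 : ge v 1 ((xx z b)⁻¹ * ell (a i.1) (xx z)) := by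
      right
      rw [v.ord_mul _ _ (inv_ne_zero hb0) (hne i.1), v.ord_inv, hb]
      have := hi.2
      omega
    have h2 : ge v 1 (∑ β, algebraMap k K (a i.1 β) *
        ((xx z b)⁻¹ * xx z β - algebraMap k K (c0 β))) := by
      refine ge_sum v _ _ _ fun β _ => ?_
      have := (ge_const v (a i.1 β)).mul (hc0 β)
      rwa [zero_add] at this
    have h3 : algebraMap k K (∑ s, a i.1 s * c0 s) = (xx z b)⁻¹ * ell (a i.1) (xx z) -
        ∑ β, algebraMap k K (a i.1 β) * ((xx z b)⁻¹ * xx z β - algebraMap k K (c0 β)) := by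
      rw [ell, map_sum, Finset.mul_sum, ← Finset.sum_sub_distrib]
      refine Finset.sum_congr rfl fun β _ => ?_
      rw [map_mul]
      ring
    have h4 : ge v 1 (algebraMap k K (∑ s, a i.1 s * c0 s)) := by
      rw [h3]
      exact h1.sub h2
    exact const_eq_zero v (by norm_num) h4
  let φ : (Fin (n + 1) → k) →ₗ[k] k := ∑ s, c0 s • LinearMap.proj s
  have hφ : ∀ x, φ x = ∑ s, x s * c0 s := by
    intro x
    simp only [φ, LinearMap.sum_apply, LinearMap.smul_apply, LinearMap.proj_apply, smul_eq_mul]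
    exact Finset.sum_congr rfl fun s _ => mul_comm _ _
  have hspan := hli.span_eq_top_of_card_eq_finrank' (by
    rw [Fintype.card_coe, hIc, Module.finrank_fin_fun])
  have hφ0 : φ = 0 := by
    refine LinearMap.ext_on_range hspan fun i => ?_
    rw [hφ, hz i]
    rfl
  have hcb : c0 b = 0 := by
    have h1 := hφ (Pi.single b 1)
    rw [hφ0] at h1
    simpa [Pi.single_apply] using h1.symm
  have h1 := hc0 b
  rw [inv_mul_cancel₀ hb0, hcb, map_zero, sub_zero] at h1
  rcases h1 with h1 | h1
  · exact one_ne_zero h1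
  · rw [v.ord_one] at h1
    omega

end Pool.Agent.H74.GH
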