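import Pool.Agent.H27.GH.Targets

namespace Pool.Agent.H74.GH

open MvPolynomial SC Pool.Agent.H27.LV Pool.Agent.H27.GH

lemma sum_tri (w : ℕ) : 2 * ∑ j ∈ Finset.range w, (w - j) = w * (w + 1) := by
  induction w with
  | zero => simp
  | succ w ih =>
    rw [Finset.sum_range_succ']
    have : ∀ j ∈ Finset.range w, (w + 1 - (j + 1)) = w - j := fun j _ => by omega
    rw [Finset.sum_congr rfl this]
    have h2 : w + 1 - 0 = w + 1 := rfl
    rw [h2, mul_add, ih]
    ring

lemma card_tri (w : ℕ) :
    2 * Fintype.card {p : Fin w × Fin w // (p.1 : ℕ) + p.2 < w} = w * (w + 1) := by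
  rw [← sum_tri w, Fintype.card_subtype, Finset.card_filter, Fintype.sum_prod_type,
    ← Fin.sum_univ_eq_sum_range (fun j => w - j) w]
  congr 1
  refine Finset.sum_congr rfl fun j _ => ?_
  rw [← Finset.card_filter]
  have e : (Finset.univ.filter fun l : Fin w => (j : ℕ) + (l : ℕ) < w) =
      Finset.univ.filter fun l : Fin w => (l : ℕ) < w - j := by
    ext l
    simp only [Finset.mem_filter, Finset.mem_univ, true_and]
    omega
  rw [e, Fin.card_filter_val_lt]
  omega

theorem exc : T_EXC := by
  intro n b1 b2 w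
  have key : Fintype.card {p : Mon (n + 3) b1 × Mon (n + 2) b2 // p.1.1 1 + p.2.1 0 < w} ≤
      Fintype.card ({p : Fin w × Fin w // (p.1 : ℕ) + p.2 < w} × (Mon (n + 2) b1 × Mon (n + 1) b2)) := by
    refine Fintype.card_le_of_injective (fun p => (⟨(⟨p.1.1.1 1, by have := p.2; omega⟩,
      ⟨p.1.2.1 0, by have := p.2; omega⟩), p.2⟩,
      (⟨fun r => p.1.1.1 (Fin.succAbove 1 r) + if r = 0 then p.1.1.1 1 else 0, ?_⟩,
       ⟨fun r => p.1.2.1 r.succ + if r = 0 then p.1.2.1 0 else 0, ?_⟩))) ?_
    · have h := p.1.1.2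
      rw [Fin.sum_univ_succAbove _ 1] at h
      rw [Finset.sum_add_distrib, Finset.sum_ite_eq']
      simp only [Finset.mem_univ, if_true]
      rw [add_comm]; exact h
    · have h := p.1.2.2
      rw [Fin.sum_univ_succ] at h
      rw [Finset.sum_add_distrib, Finset.sum_ite_eq']
      simp only [Finset.mem_univ, if_true]
      rw [add_comm]; exact h
    · rintro ⟨⟨⟨α, hα⟩, ⟨β, hβ⟩⟩, h1⟩ ⟨⟨⟨α', hα'⟩, ⟨β', hβ'⟩⟩, h2⟩ h
      simp only [Prod.mk.injEq, Subtype.mk.injEq, Fin.mk.injEq] at h
      obtain ⟨⟨ha, hb⟩, hA, hB⟩ := h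
      have e1 : α = α' := by
        funext i
        by_cases hi : i = 1
        · rw [hi]; exact ha
        · obtain ⟨r, hr⟩ := Fin.exists_succAbove_eq hi
          have := congrFun hA r
          simp only [ha] at this
          rw [← hr]
          exact Nat.add_right_cancel this
      have e2 : β = β' := by
        funext i
        refine Fin.cases hb (fun r => ?_) i
        have := congrFun hB r
        simp only [hb] at this
        exact Nat.add_right_cancel this
      subst e1 e2
      rfl
  have h2 := card_tri w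
  rw [Fintype.card_prod, Fintype.card_prod] at key
  calc 2 * Fintype.card {p : Mon (n + 3) b1 × Mon (n + 2) b2 // p.1.1 1 + p.2.1 0 < w}
      ≤ 2 * (Fintype.card {p : Fin w × Fin w // (p.1 : ℕ) + p.2 < w} *
        (Fintype.card (Mon (n + 2) b1) * Fintype.card (Mon (n + 1) b2))) := by omega
    _ = w * (w + 1) * (Fintype.card (Mon (n + 2) b1) * Fintype.card (Mon (n + 1) b2)) := by
        rw [← mul_assoc, h2]

end Pool.Agent.H74.GH
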