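import Pool.Agent.H27.GH.Targets

namespace Pool.Agent.H74.GH

open MvPolynomial SC Pool.Agent.H27.LV Pool.Agent.H27.GH

section

variable {R : Type} [CommRing R] {n b1 b2 : ℕ}

/-- exponent of the variables -/
noncomputable def ee (p : Mon (n + 2) b1 × Mon (n + 1) b2) : Vr (n + 1) →₀ ℕ :=
  Finsupp.equivFunOnFinite.symm (Sum.elim p.1.1 p.2.1)

lemma ee_inl (p : Mon (n + 2) b1 × Mon (n + 1) b2) (s) : ee p (Sum.inl s) = p.1.1 s := rfl
lemma ee_inr (p : Mon (n + 2) b1 × Mon (n + 1) b2) (s) : ee p (Sum.inr s) = p.2.1 s := rfl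

lemma ee_inj : Function.Injective (ee (n := n) (b1 := b1) (b2 := b2)) := by
  rintro ⟨⟨α, hα⟩, ⟨β, hβ⟩⟩ ⟨⟨α', hα'⟩, ⟨β', hβ'⟩⟩ h
  have e1 : α = α' := by
    funext s
    exact DFunLike.congr_fun h (Sum.inl s)
  have e2 : β = β' := by
    funext s
    exact DFunLike.congr_fun h (Sum.inr s)
  subst e1 e2
  rfl

lemma ee_surj (m : Vr (n + 1) →₀ ℕ) (h1 : ∑ s, m (Sum.inl s) = b1) (h2 : ∑ s, m (Sum.inr s) = b2) :
    ∃ p : Mon (n + 2) b1 × Mon (n + 1) b2, ee p = m := by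
  refine ⟨(⟨fun s => m (Sum.inl s), h1⟩, ⟨fun s => m (Sum.inr s), h2⟩), ?_⟩
  ext v
  rcases v with s | s <;> rfl

/-- polynomial with given coefficients -/
noncomputable def Pc (c : Mon (n + 2) b1 × Mon (n + 1) b2 → R) : MvPolynomial (Vr (n + 1)) R :=
  ∑ p, monomial (ee p) (c p)

lemma coeff_Pc (c : Mon (n + 2) b1 × Mon (n + 1) b2 → R) (p) : coeff (ee p) (Pc c) = c p := by
  classical
  rw [Pc, coeff_sum, Finset.sum_eq_single p]
  · simp
  · intro q _ hq
    rw [coeff_monomial, if_neg (fun h => hq (ee_inj h))]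
  · simp

lemma bih_Pc (c : Mon (n + 2) b1 × Mon (n + 1) b2 → R) : Bih b1 b2 (Pc c) := by
  classical
  intro m hm
  rw [mem_support_iff, Pc, coeff_sum] at hm
  obtain ⟨p, _, hp⟩ := Finset.exists_ne_zero_of_sum_ne_zero hm
  rw [coeff_monomial] at hp
  have : ee p = m := by
    by_contra h
    simp [h] at hp
  subst this
  exact ⟨p.1.2, p.2.2⟩

theorem exl (hSUB : T_SUB) (hSBH : T_SBH) : T_EXL := by
  classical
  intro R _ _ n b1 b2 w q a ha hcard
  let S := {p : Mon (n + 2) b1 × Mon (n + 1) b2 // p.1.1 1 + p.2.1 0 < w}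
  let L : (Mon (n + 2) b1 × Mon (n + 1) b2 → R) →ₗ[R] (Fin q × S → R) :=
    LinearMap.pi fun x => ∑ p' : Mon (n + 2) b1 × Mon (n + 1) b2,
      (coeff (ee x.2.1) (phi (a x.1) (monomial (ee p') 1))) • LinearMap.proj p'
  have hL : ∀ c i (p : S), L c (i, p) = coeff (ee p.1) (phi (a i) (Pc c)) := by
    intro c i p
    simp only [L, LinearMap.pi_apply, LinearMap.sum_apply, LinearMap.smul_apply,
      LinearMap.proj_apply, smul_eq_mul]
    rw [Pc, map_sum, coeff_sum]
    refine Finset.sum_congr rfl fun p' _ => ?_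
    have h1 : (monomial (ee p') (c p') : MvPolynomial (Vr (n + 1)) R) =
        C (c p') * monomial (ee p') 1 := by
      rw [C_mul_monomial, mul_one]
    have h2 : phi (a i) (C (c p')) = C (c p') := by simp [phi]
    rw [h1, map_mul, h2, coeff_C_mul, mul_comm]
  have hni : ¬ Function.Injective L := by
    intro hinj
    have := card_le_of_injective R L hinj
    rw [Fintype.card_prod, Fintype.card_prod, Fintype.card_fin] at this
    exact absurd this (not_le.2 hcard)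
  obtain ⟨c, hc0, hc⟩ : ∃ c, L c = 0 ∧ c ≠ 0 := by
    by_contra h
    push Not at h
    exact hni ((injective_iff_map_eq_zero L).2 h)
  have hPc : Pc c ≠ 0 := by
    intro h
    apply hc
    funext p
    rw [← coeff_Pc c p, h]
    simp
  have hmem : ∀ i, C (a i 1 ^ (b1 + b2)) * Pc c ∈ LI (a i) ^ w := by
    intro i
    refine hSUB R n b1 b2 w (a i) (Pc c) (bih_Pc c) ?_
    intro m hm
    by_contra h
    obtain ⟨h1, h2⟩ := hSBH R n b1 b2 (a i) (Pc c) (bih_Pc c) m (mem_support_iff.2 h)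
    obtain ⟨p, rfl⟩ := ee_surj m h1 h2
    apply h
    rw [ee_inl, ee_inr] at hm
    rw [← hL c i ⟨p, hm⟩, hc0]
    rfl
  refine ⟨C (∏ i, a i 1 ^ (b1 + b2)) * Pc c, mul_ne_zero ?_ hPc, ?_, fun i => ?_⟩
  · rw [Ne, C_eq_zero, Finset.prod_eq_zero_iff]
    push Not
    exact fun i _ => pow_ne_zero _ (ha i)
  · intro m hm
    rw [mem_support_iff, coeff_C_mul] at hm
    exact bih_Pc c m (mem_support_iff.2 (right_ne_zero_of_mul hm))
  · rw [← Finset.mul_prod_erase _ _ (Finset.mem_univ i), mul_comm (a i 1 ^ (b1 + b2)), C_mul, mul_assoc]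
    exact Ideal.mul_mem_left _ _ (hmem i)

end

end Pool.Agent.H74.GH
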