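import Pool.Agent.H27.GH.Targets

namespace Pool.Agent.H74.GH

open MvPolynomial SC Pool.Agent.H27.LV Pool.Agent.H27.GH

section

variable {K : Type} [Field K] {n : ℕ}

lemma eval_bih (b1 b2 : ℕ) (P : MvPolynomial (Vr n) K) (hP : Bih b1 b2 P) (s t : K)
    (x : Fin (n + 1) → K) (y : Fin n → K) :
    eval (Sum.elim (fun i => s * x i) (fun i => t * y i)) P =
      s ^ b1 * t ^ b2 * eval (Sum.elim x y) P := by
  rw [eval_eq', eval_eq', Finset.mul_sum]
  refine Finset.sum_congr rfl fun m hm => ?_
  obtain ⟨h1, h2⟩ := hP m hm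
  rw [Fintype.prod_sum_type, Fintype.prod_sum_type]
  simp only [Sum.elim_inl, Sum.elim_inr, mul_pow, Finset.prod_mul_distrib,
    Finset.prod_pow_eq_pow_sum, h1, h2]
  ring

/-- the substitution on the variables -/
noncomputable def gg (j : Fin n) (z y : Fin n → K) : Vr n → MvPolynomial (Fin n ⊕ Fin n) K :=
  Sum.elim (Fin.cons 1 fun s => C (z s) + C (z j) * (if s = j then 0 else X (Sum.inr s)) +
      X (Sum.inl s)) (fun s => C (y s) + C (y j) * (if s = j then 0 else X (Sum.inr s)))

lemma td_aux (a b : K) (s j : Fin n) :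
    (C a + C b * (if s = j then 0 else X (Sum.inr s)) :
      MvPolynomial (Fin n ⊕ Fin n) K).totalDegree ≤ 1 := by
  refine (totalDegree_add _ _).trans (max_le ?_ ?_)
  · rw [totalDegree_C]; exact Nat.zero_le _
  · refine (totalDegree_mul _ _).trans ?_
    rw [totalDegree_C]
    split_ifs
    · simp
    · rw [totalDegree_X]

lemma td_gg (j : Fin n) (z y : Fin n → K) (v : Vr n) : (gg j z y v).totalDegree ≤ 1 := by
  rcases v with s | s
  · refine Fin.cases ?_ (fun s => ?_) s
    · simp [gg]
    · simp only [gg, Sum.elim_inl, Fin.cons_succ]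
      refine (totalDegree_add _ _).trans (max_le (td_aux _ _ _ _) ?_)
      rw [totalDegree_X]
  · simp only [gg, Sum.elim_inr]
    exact td_aux _ _ _ _

lemma td_eval₂ (j : Fin n) (z y : Fin n → K) (b1 b2 : ℕ) (P : MvPolynomial (Vr n) K)
    (hP : Bih b1 b2 P) : (eval₂ C (gg j z y) P).totalDegree ≤ b1 + b2 := by
  rw [eval₂_eq']
  refine totalDegree_finsetSum_le fun m hm => ?_
  obtain ⟨h1, h2⟩ := hP m hm
  have h3 : ∑ i, m i = b1 + b2 := by rw [Fintype.sum_sum_type, h1, h2]
  refine (totalDegree_mul _ _).trans ?_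
  rw [totalDegree_C, zero_add, ← h3]
  refine (totalDegree_finsetProd _ _).trans (Finset.sum_le_sum fun i _ => ?_)
  refine (totalDegree_pow _ _).trans ?_
  calc m i * (gg j z y i).totalDegree ≤ m i * 1 := Nat.mul_le_mul_left _ (td_gg j z y i)
    _ = m i := mul_one _

lemma nv [Infinite K] (j : Fin n) (z y : Fin n → K) (hy : y j ≠ 0) (b1 b2 : ℕ)
    (P : MvPolynomial (Vr n) K) (hP : Bih b1 b2 P) (h : eval₂ C (gg j z y) P = 0) : P = 0 := by
  classical
  have key : ∀ (x : Fin (n + 1) → K) (w : Fin n → K), x 0 ≠ 0 → w j ≠ 0 →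
      eval (Sum.elim x w) P = 0 := by
    intro x w hx hw
    set c := y j / w j with hc
    have hc0 : c ≠ 0 := div_ne_zero hy hw
    let v : Fin n → K := fun r => if r = j then 0 else (c * w r - y r) / y j
    let τ : Fin n → K := fun s => x s.succ / x 0 - z s - z j * v s
    have e1 : eval (Sum.elim τ v) (eval₂ C (gg j z y) P) =
        eval (fun i => eval (Sum.elim τ v) (gg j z y i)) P := by
      rw [eval₂_eq', map_sum, eval_eq']
      refine Finset.sum_congr rfl fun m _ => ?_
      rw [map_mul, map_prod, eval_C]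
      refine congrArg _ (Finset.prod_congr rfl fun i _ => ?_)
      rw [map_pow]
    have e2 : (fun i => eval (Sum.elim τ v) (gg j z y i)) =
        Sum.elim (fun i => (x 0)⁻¹ * x i) (fun i => c * w i) := by
      funext i
      rcases i with s | s
      · refine Fin.cases ?_ (fun s => ?_) s
        · simp [gg, hx]
        · simp only [gg, Sum.elim_inl, Fin.cons_succ, map_add, map_mul, eval_C, eval_X]
          by_cases hs : s = j
          · subst hs
            simp [τ, v]
            ring
          · simp [τ, v, hs]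
            ring
      · simp only [gg, Sum.elim_inr, map_add, map_mul, eval_C]
        by_cases hs : s = j
        · subst hs
          simp [hc, hw]
        · simp only [hs, if_false, eval_X, Sum.elim_inr, v]
          field_simp
          ring
    rw [h, map_zero, e2, eval_bih b1 b2 P hP] at e1
    have : (x 0)⁻¹ ^ b1 * c ^ b2 ≠ 0 := mul_ne_zero (pow_ne_zero _ (inv_ne_zero hx)) (pow_ne_zero _ hc0)
    exact (mul_eq_zero.1 e1.symm).resolve_left this
  have h2 : P * (X (Sum.inl 0) * X (Sum.inr j)) = 0 := by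
    refine MvPolynomial.funext fun p => ?_
    rw [map_mul, map_mul, map_zero, eval_X, eval_X]
    by_cases hx : p (Sum.inl 0) = 0
    · rw [hx]; ring
    by_cases hw : p (Sum.inr j) = 0
    · rw [hw]; ring
    have h3 := key (fun i => p (Sum.inl i)) (fun i => p (Sum.inr i)) hx hw
    have h4 : (Sum.elim (fun i => p (Sum.inl i)) (fun i => p (Sum.inr i))) = p := by
      funext i
      rcases i with s | s <;> rfl
    rw [h4] at h3
    rw [h3]; ring
  rcases mul_eq_zero.1 h2 with h3 | h3
  · exact h3
  · rcases mul_eq_zero.1 h3 with h4 | h4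
    · exact absurd h4 (X_ne_zero _)
    · exact absurd h4 (X_ne_zero _)

end

theorem nva : T_NVA := by
  intro k _ _ K _ _ n q a0 j b1 b2 P hP hne z y hy
  have hK : Infinite K := Infinite.of_injective (algebraMap k K) (algebraMap k K).injective
  set P0 : MvPolynomial (Vr n) K := MvPolynomial.map ((algebraMap k K).comp (eval fun is => a0 is.1 is.2)) P
    with hP0
  have e : NN a0 j z y P = eval₂ C (gg j z y) P0 := by
    rw [hP0, eval₂_map]
    rfl
  have hb : Bih b1 b2 P0 := fun m hm => hP m (support_map_subset _ _ hm)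
  have hne0 : P0 ≠ 0 := by
    intro h0
    apply hne
    apply MvPolynomial.map_injective (algebraMap k K) (algebraMap k K).injective
    rw [map_zero, MvPolynomial.map_map]
    exact h0
  rw [e]
  exact ⟨fun h => hne0 (nv j z y hy b1 b2 P0 hb h), td_eval₂ j z y b1 b2 P0 hb⟩

end Pool.Agent.H74.GH
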