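import Pool.Agent.H27.GH.Targets

namespace Pool.Agent.H74.GH

open MvPolynomial SC Pool.Agent.H27.LV Pool.Agent.H27.GH

section

variable {R : Type} [CommRing R] {n : ℕ}

/-- substitution `X_1 ↦ ℓ`, `Y_1 ↦ ℓ'` -/
noncomputable def chi (a : Fin (n + 2) → R) :
    MvPolynomial (Vr (n + 1)) R →+* MvPolynomial (Vr (n + 1)) R :=
  eval₂Hom C (Sum.elim (fun s => if s = 1 then lX a else X (Sum.inl s))
    (fun s => if s = 0 then lY a else X (Sum.inr s)))

lemma chi_phi (a : Fin (n + 2) → R) :
    (chi a).comp (phi a) = eval₂Hom C (fun v => C (a 1) * X v) := by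
  refine MvPolynomial.ringHom_ext (fun r => ?_) (fun v => ?_)
  · simp [chi, phi]
  · rcases v with s | s
    · simp only [RingHom.comp_apply, phi, eval₂Hom_X', Sum.elim_inl]
      by_cases hs : s = 1
      · subst hs
        rw [if_pos rfl, map_sub, map_sum]
        have h1 : chi a (X (Sum.inl 1)) = lX a := by simp [chi]
        have h2 : ∀ r ∈ (Finset.univ.erase 1 : Finset (Fin (n + 2))),
            chi a (C (a r) * X (Sum.inl r)) = C (a r) * X (Sum.inl r) := by
          intro r hr
          have := Finset.ne_of_mem_erase hr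
          simp [chi, this]
        rw [h1, Finset.sum_congr rfl h2, lX, ← Finset.add_sum_erase _ _ (Finset.mem_univ (1 : Fin (n + 2)))]
        ring
      · rw [if_neg hs, map_mul]
        simp [chi, hs]
    · simp only [RingHom.comp_apply, phi, eval₂Hom_X', Sum.elim_inr]
      by_cases hs : s = 0
      · subst hs
        rw [if_pos rfl, map_sub, map_sum]
        have h1 : chi a (X (Sum.inr 0)) = lY a := by simp [chi]
        have h2 : ∀ r ∈ (Finset.univ.erase 0 : Finset (Fin (n + 1))),
            chi a (C (a r.succ) * X (Sum.inr r)) = C (a r.succ) * X (Sum.inr r) := by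
          intro r hr
          have := Finset.ne_of_mem_erase hr
          simp [chi, this]
        rw [h1, Finset.sum_congr rfl h2, lY, ← Finset.add_sum_erase _ _ (Finset.mem_univ (0 : Fin (n + 1)))]
        rw [Fin.succ_zero_eq_one]
        ring
      · rw [if_neg hs, map_mul]
        simp [chi, hs]

lemma chi_phi_bih (a : Fin (n + 2) → R) (b1 b2 : ℕ) (P : MvPolynomial (Vr (n + 1)) R)
    (hP : Bih b1 b2 P) : chi a (phi a P) = C (a 1 ^ (b1 + b2)) * P := by
  have h1 : chi a (phi a P) = ((chi a).comp (phi a)) P := rfl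
  rw [h1, chi_phi, coe_eval₂Hom, eval₂_eq']
  conv_rhs => rw [P.as_sum]
  rw [Finset.mul_sum]
  refine Finset.sum_congr rfl fun m hm => ?_
  obtain ⟨h2, h3⟩ := hP m hm
  have h4 : (∏ i, (C (a 1) * X i : MvPolynomial (Vr (n + 1)) R) ^ m i) =
      C (a 1 ^ (b1 + b2)) * ∏ i, (X i : MvPolynomial (Vr (n + 1)) R) ^ m i := by
    have : ∑ i, m i = b1 + b2 := by rw [Fintype.sum_sum_type, h2, h3]
    rw [← this, map_pow, ← Finset.prod_pow_eq_pow_sum, ← Finset.prod_mul_distrib]
    exact Finset.prod_congr rfl fun i _ => mul_pow _ _ _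
  rw [h4, monomial_eq, Finsupp.prod_fintype _ _ (fun _ => pow_zero _)]
  ring

theorem sub : T_SUB := by
  intro R _ n b1 b2 w a P hP hc
  rw [← chi_phi_bih a b1 b2 P hP]
  generalize phi a P = Q at hc
  rw [chi, coe_eval₂Hom, eval₂_eq']
  refine Ideal.sum_mem _ fun m hm => ?_
  have hw : w ≤ m (Sum.inl 1) + m (Sum.inr 0) := by
    by_contra h
    exact (mem_support_iff.1 hm) (hc m (not_le.1 h))
  refine Ideal.mul_mem_left _ _ ?_
  rw [Fintype.prod_sum_type]
  have hX : lX a ∈ LI a := Ideal.subset_span (by simp)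
  have hY : lY a ∈ LI a := Ideal.subset_span (by simp)
  refine Ideal.pow_le_pow_right hw ?_
  rw [pow_add]
  refine Ideal.mul_mem_mul ?_ ?_
  · rw [← Finset.mul_prod_erase _ _ (Finset.mem_univ (1 : Fin (n + 2)))]
    refine Ideal.mul_mem_right _ _ ?_
    simp only [Sum.elim_inl, if_true]
    exact Ideal.pow_mem_pow hX _
  · rw [← Finset.mul_prod_erase _ _ (Finset.mem_univ (0 : Fin (n + 1)))]
    refine Ideal.mul_mem_right _ _ ?_
    simp only [Sum.elim_inr, if_true]
    exact Ideal.pow_mem_pow hY _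

end

end Pool.Agent.H74.GH
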