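import Pool.Agent.H27.GH.Targets

namespace Pool.Agent.H74.GH

open MvPolynomial SC Pool.Agent.H27.LV Pool.Agent.H27.GH

section

variable {k : Type} [Field k] {K : Type} [Field K] [Algebra k K] {n q : ℕ}
  (a0 : Fin q → Fin (n + 1) → k) (j : Fin n) (z y : Fin n → K)

lemma SU_C (r) : SU a0 j z y (C r) = C (aeval (Sum.elim (xx z) y) r) := by
  simp [SU]

lemma SU_tv (s) : SU a0 j z y (tv s) = X (Sum.inl s) := by
  simp [SU, tv]

lemma SU_vv (s) : SU a0 j z y (vv' j s) = if s = j then 0 else X (Sum.inr s) := by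
  unfold vv'
  split_ifs <;> simp [SU]

lemma SU_bb0 (i) : SU a0 j z y (bb a0 i 0) = C (algebraMap k K (a0 i 0)) +
    ∑ s : Fin n, C (algebraMap k K (a0 i s.succ)) * X (Sum.inl s) := by
  simp [SU, bb]

/-- value of `A_i` -/
noncomputable def AV (i : Fin q) : MvPolynomial (Fin n ⊕ Fin n) K :=
  ∑ r : Fin n, C (algebraMap k K (a0 i r.succ)) * (if r = j then 0 else X (Sum.inr r))

lemma SU_bbs (i) (s : Fin n) : SU a0 j z y (bb a0 i s.succ) = C (algebraMap k K (a0 i s.succ)) +
    if s = j then AV a0 j i else 0 := by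
  simp [SU, bb, AV]

lemma SU_AA (i) : SU a0 j z y (AA a0 j i) = (AV a0 j i : MvPolynomial (Fin n ⊕ Fin n) K) := by
  rw [AA, map_sum, AV]
  refine Finset.sum_congr rfl fun r _ => ?_
  rw [map_mul, SU_bbs, SU_vv]
  by_cases h : r = j
  · simp [h]
  · simp [h]

lemma SU_aT (i) (s) : SU a0 j z y (aT a0 j i s) = C (algebraMap k K (a0 i s)) := by
  refine Fin.cases ?_ (fun s => ?_) s
  · simp only [aT, Fin.cons_zero]
    rw [map_add, map_sub, map_sum, map_mul, SU_AA, SU_tv, SU_bb0]
    have h1 : ∀ s : Fin n, SU a0 j z y (bb a0 i s.succ * tv s) =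
        C (algebraMap k K (a0 i s.succ)) * X (Sum.inl s) +
          if s = j then AV a0 j i * X (Sum.inl s) else 0 := by
      intro s
      rw [map_mul, SU_bbs, SU_tv, add_mul, ite_mul, zero_mul]
    rw [Finset.sum_congr rfl (fun s _ => h1 s), Finset.sum_add_distrib, Finset.sum_ite_eq']
    simp only [Finset.mem_univ, if_true]
    ring
  · simp only [aT, Fin.cons_succ]
    rw [map_sub, SU_bbs]
    split_ifs
    · rw [SU_AA]; ring
    · simp

theorem nvb : T_NVB := by
  intro k _ K _ _ n q a0 j z y P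
  suffices h : (SU a0 j z y).comp (Th a0 j) = NN a0 j z y from
    congrArg (fun f : MvPolynomial (Vr n) (MvPolynomial (Fin q × Fin (n + 1)) k) →+*
      MvPolynomial (Fin n ⊕ Fin n) K => f P) h
  refine MvPolynomial.ringHom_ext (fun r => ?_) (fun v => ?_)
  · have h2 : (((SU a0 j z y).comp (Th a0 j)).comp C) =
        ((NN a0 j z y).comp C) := by
      refine MvPolynomial.ringHom_ext (fun c => ?_) (fun is => ?_)
      · simp [Th, NN, SU_C]
      · simp [Th, NN, SU_aT]
    exact congrArg (fun f : MvPolynomial (Fin q × Fin (n + 1)) k →+*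
      MvPolynomial (Fin n ⊕ Fin n) K => f r) h2
  · rcases v with s | s
    · refine Fin.cases ?_ (fun s => ?_) s
      · simp [Th, NN, xT, SU_C, xx]
      · simp only [Th, NN, RingHom.comp_apply, eval₂Hom_X', Sum.elim_inl, xT, Fin.cons_succ,
          map_add, map_mul, SU_C, SU_vv, SU_tv, aeval_X]
        simp [xx]
    · simp only [Th, NN, RingHom.comp_apply, eval₂Hom_X', Sum.elim_inr, yT,
          map_add, map_mul, SU_C, SU_vv, SU_tv, aeval_X]

end

end Pool.Agent.H74.GH
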